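import Mathlib
import Pool.Agent.Lib.MP_831e37_an.Defs
import Pool.Agent.Lib.MP_831e37_an.Proof

set_option autoImplicit false

open MeasureTheory Filter Topology
open scoped CompactlySupported
open Pool.Agent.Lib.MP_831e37_an

/-- For every d at least 1 there are finite complex Radon measures nu_n on R^d, Fourier
transformable with transforms nuhat_n, and a nonzero measure mu, such that nu_n tends to 0 vaguely
and nuhat_n tends to mu vaguely. -/
theorem Pool.Agent.Results.MP_831e37_an.VagueExample.result (d : ℕ) (hd : 1 ≤ d) :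
    ∃ (ν νhat : ℕ → CRadon d) (μ : CRadon d),
      (∀ n, IsFiniteMeasure (ν n).tv) ∧
      (∀ n, IsFourierTransform (ν n) (νhat n)) ∧
      (∀ f : C_c(Euc d, ℂ), Tendsto (fun n => (ν n).eval f) atTop (𝓝 0)) ∧
      (∀ f : C_c(Euc d, ℂ), Tendsto (fun n => (νhat n).eval f) atTop (𝓝 (μ.eval f))) ∧
      (∃ f : C_c(Euc d, ℂ), μ.eval f ≠ 0) :=
  Pool.Agent.Lib.MP_831e37_an.main hd
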